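import Pool.Agent.H329R3.NLS.Orig

set_option autoImplicit false

open Set Filter Topology MeasureTheory

namespace Pool.Agent.Y244.NLS

open Pool.Agent.H329R3.NLS

/-- well separated points in a set of large outer measure -/
theorem nodesN {N : ℕ} (hN : 1 ≤ N) {b : ℝ} (hb : 0 < b) {E : Set ℝ} (hE : E ⊆ Icc (b / 2) b)
    (hvol : ENNReal.ofReal (b / (4 * N)) ≤ volume E) (n : ℕ) :
    ∃ x : ℕ → ℝ, (∀ i ≤ n, x i ∈ E) ∧
      ∀ i j, i < j → j ≤ n → (b / (8 * N * (n + 1))) * ((j : ℝ) - i) ≤ x j - x i := by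
  classical
  have hN0 : (0 : ℝ) < N := by exact_mod_cast hN
  set δ : ℝ := b / (8 * N * (n + 1)) with hδ
  have hδ0 : 0 < δ := by positivity
  set κ : ℝ → ℕ := fun x => ⌊(x - b / 2) / δ⌋₊ with hκ
  have hκ1 : ∀ x ∈ E, b / 2 + κ x * δ ≤ x := by
    intro x hx
    have h0 : 0 ≤ (x - b / 2) / δ := div_nonneg (by linarith [(hE hx).1]) hδ0.le
    have := Nat.floor_le h0
    rw [le_div_iff₀ hδ0] at this
    linarith
  have hκ2 : ∀ x ∈ E, x < b / 2 + (κ x + 1) * δ := by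
    intro x hx
    have := Nat.lt_floor_add_one ((x - b / 2) / δ)
    rw [div_lt_iff₀ hδ0] at this
    linarith
  have hκ3 : ∀ x ∈ E, κ x ∈ Finset.range (4 * N * (n + 1) + 1) := by
    intro x hx
    rw [Finset.mem_range, Nat.lt_succ_iff]
    apply Nat.floor_le_of_le
    rw [div_le_iff₀ hδ0, hδ]
    have : ((4 * N * (n + 1) : ℕ) : ℝ) * (b / (8 * N * (n + 1))) = b / 2 := by
      push_cast; field_simp; norm_num
    rw [this]
    linarith [(hE hx).2]
  set S : Finset ℕ := (Finset.range (4 * N * (n + 1) + 1)).filter (fun i => ∃ x ∈ E, κ x = i) with hS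
  have hsub : E ⊆ ⋃ i ∈ S, Icc (b / 2 + i * δ) (b / 2 + (i + 1) * δ) := by
    intro x hx
    rw [mem_iUnion₂]
    exact ⟨κ x, Finset.mem_filter.2 ⟨hκ3 x hx, x, hx, rfl⟩, hκ1 x hx, (hκ2 x hx).le⟩
  have hcard : 2 * n + 2 ≤ S.card := by
    have h1 : volume E ≤ ∑ i ∈ S, volume (Icc (b / 2 + i * δ) (b / 2 + (i + 1) * δ)) :=
      (measure_mono hsub).trans (measure_biUnion_finset_le S _)
    have h2 : ∀ i ∈ S, volume (Icc (b / 2 + i * δ) (b / 2 + (i + 1) * δ)) = ENNReal.ofReal δ := by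
      intro i _
      rw [Real.volume_Icc]
      congr 1
      ring
    rw [Finset.sum_congr rfl h2, Finset.sum_const, nsmul_eq_mul] at h1
    have h3 := hvol.trans h1
    have h4 : ((S.card : ℕ) : ENNReal) * ENNReal.ofReal δ = ENNReal.ofReal (S.card * δ) := by
      rw [ENNReal.ofReal_mul (by positivity), ENNReal.ofReal_natCast]
    rw [h4, ENNReal.ofReal_le_ofReal_iff (by positivity)] at h3
    have h5 : b / (4 * N) = (2 * n + 2 : ℕ) * δ := by
      rw [hδ]; push_cast; field_simp; ring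
    rw [h5] at h3
    have h6 := le_of_mul_le_mul_right h3 hδ0
    exact_mod_cast h6
  obtain ⟨f, hf1, hf2⟩ := pick n S hcard
  have hex : ∀ i, ∃ x, i ≤ n → x ∈ E ∧ κ x = f i := by
    intro i
    by_cases h : i ≤ n
    · obtain ⟨x, hx, hx2⟩ := (Finset.mem_filter.1 (hf1 i h)).2
      exact ⟨x, fun _ => ⟨hx, hx2⟩⟩
    · exact ⟨0, fun h' => absurd h' h⟩
  choose x hx using hex
  refine ⟨x, fun i hi => (hx i hi).1, fun i j hij hj => ?_⟩
  have h1 := hκ2 _ (hx i (by omega)).1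
  have h2 := hκ1 _ (hx j hj).1
  rw [(hx i (by omega)).2] at h1
  rw [(hx j hj).2] at h2
  have h3 := hf2 i j hij.le hj
  have h4 : (f i : ℝ) + 2 * ((j : ℝ) - i) ≤ f j := by
    have : ((j - i : ℕ) : ℝ) = (j : ℝ) - i := by rw [Nat.cast_sub hij.le]
    rw [← this]
    exact_mod_cast h3
  have h5 : (1 : ℝ) ≤ (j : ℝ) - i := by
    have : ((i + 1 : ℕ) : ℝ) ≤ j := by exact_mod_cast hij
    push_cast at this
    linarith
  nlinarith [mul_le_mul_of_nonneg_right h4 hδ0.le, mul_le_mul_of_nonneg_right h5 hδ0.le]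


theorem remezN {N : ℕ} (hN : 1 ≤ N) {b : ℝ} (hb : 0 < b) {E : Set ℝ} (hE : E ⊆ Icc (b / 2) b)
    (hvol : ENNReal.ofReal (b / (4 * N)) ≤ volume E) (n : ℕ) (P : Polynomial ℂ) (hP : P.natDegree ≤ n)
    {η : ℝ} (hη : ∀ x ∈ E, ‖P.eval (x : ℂ)‖ ≤ η) : ‖P.eval 0‖ ≤ (48 * N) ^ (n + 1) * η := by
  have hN0 : (0 : ℝ) < N := by exact_mod_cast hN
  have hN1 : (1 : ℝ) ≤ N := by exact_mod_cast hN
  obtain ⟨x, hx1, hx2⟩ := nodesN hN hb hE hvol n
  set δ : ℝ := b / (8 * N * (n + 1)) with hδ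
  have hδ0 : 0 < δ := by positivity
  have hη0 : 0 ≤ η := (norm_nonneg _).trans (hη _ (hx1 0 (Nat.zero_le _)))
  have habs : ∀ i ≤ n, ∀ j ≤ n, i ≠ j → δ * |(i : ℝ) - j| ≤ |x i - x j| := by
    intro i hi j hj hij
    rcases lt_or_gt_of_ne hij with h | h
    · have h1 := hx2 i j h hj
      have h2 : (0 : ℝ) ≤ (j : ℝ) - i := by
        have : (i : ℝ) ≤ j := by exact_mod_cast h.le
        linarith
      rw [abs_sub_comm, abs_sub_comm (x i), abs_of_nonneg h2]
      exact h1.trans (le_abs_self _)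
    · have h1 := hx2 j i h hi
      have h2 : (0 : ℝ) ≤ (i : ℝ) - j := by
        have : (j : ℝ) ≤ i := by exact_mod_cast h.le
        linarith
      rw [abs_of_nonneg h2]
      exact h1.trans (le_abs_self _)
  set v : ℕ → ℂ := fun i => (x i : ℂ) with hv
  have hinj : Set.InjOn v (Finset.range (n + 1) : Finset ℕ) := by
    intro i hi j hj hij
    by_contra hne
    have hi' : i ≤ n := by simpa [Nat.lt_succ_iff] using hi
    have hj' : j ≤ n := by simpa [Nat.lt_succ_iff] using hj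
    have h1 := habs i hi' j hj' hne
    have h2 : x i = x j := Complex.ofReal_injective hij
    rw [h2, sub_self, abs_zero] at h1
    have h3 : (0 : ℝ) < |(i : ℝ) - j| := by
      apply abs_pos.2
      intro h
      apply hne
      have : (i : ℝ) = j := by linarith
      exact_mod_cast this
    nlinarith
  have hdeg : P.degree < ((Finset.range (n + 1)).card : ℕ) := by
    rw [Finset.card_range]
    refine lt_of_le_of_lt Polynomial.degree_le_natDegree ?_
    exact_mod_cast Nat.lt_succ_of_le hP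
  have hint := Lagrange.eq_interpolate hinj hdeg
  have heval : P.eval 0 = ∑ i ∈ Finset.range (n + 1), P.eval (v i) *
      ∏ j ∈ (Finset.range (n + 1)).erase i, ((v i - v j)⁻¹ * (0 - v j)) := by
    conv_lhs => rw [hint]
    rw [Lagrange.interpolate_apply, Polynomial.eval_finsetSum]
    refine Finset.sum_congr rfl fun i _ => ?_
    rw [Polynomial.eval_mul, Polynomial.eval_C, Lagrange.basis, Polynomial.eval_prod]
    congr 1
    refine Finset.prod_congr rfl fun j _ => ?_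
    simp [Lagrange.basisDivisor]
  have hterm : ∀ i ∈ Finset.range (n + 1), ‖P.eval (v i) *
      ∏ j ∈ (Finset.range (n + 1)).erase i, ((v i - v j)⁻¹ * (0 - v j))‖ ≤
      η * ((8 * N * (n + 1)) ^ n * (n.choose i / n.factorial)) := by
    intro i hi
    have hi' : i ≤ n := by simpa [Nat.lt_succ_iff] using hi
    rw [norm_mul]
    refine mul_le_mul (hη _ (hx1 i hi')) ?_ (norm_nonneg _) hη0
    rw [norm_prod]
    have h1 : ∀ j ∈ (Finset.range (n + 1)).erase i, ‖(v i - v j)⁻¹ * (0 - v j)‖ ≤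
        (8 * N * (n + 1)) * |(i : ℝ) - j|⁻¹ := by
      intro j hj
      have hj1 : j ≠ i := Finset.ne_of_mem_erase hj
      have hj' : j ≤ n := by
        have := Finset.mem_of_mem_erase hj
        simpa [Nat.lt_succ_iff] using this
      have h3 : (0 : ℝ) < |(i : ℝ) - j| := by
        apply abs_pos.2
        intro h
        apply hj1
        have : (j : ℝ) = i := by linarith
        exact_mod_cast this
      have h4 := habs i hi' j hj' (Ne.symm hj1)
      have h5 : ‖v i - v j‖ = |x i - x j| := by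
        simp only [hv]
        rw [← Complex.ofReal_sub, Complex.norm_real, Real.norm_eq_abs]
      have h6 : ‖(0 : ℂ) - v j‖ ≤ b := by
        simp only [hv, zero_sub, norm_neg, Complex.norm_real, Real.norm_eq_abs]
        have := hE (hx1 j hj')
        rw [abs_of_nonneg (by linarith [this.1])]
        exact this.2
      rw [norm_mul, norm_inv, h5]
      have h7 : |x i - x j|⁻¹ ≤ (δ * |(i : ℝ) - j|)⁻¹ := inv_anti₀ (by positivity) h4
      calc |x i - x j|⁻¹ * ‖(0 : ℂ) - v j‖ ≤ (δ * |(i : ℝ) - j|)⁻¹ * b :=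
            mul_le_mul h7 h6 (norm_nonneg _) (by positivity)
        _ = (8 * N * (n + 1)) * |(i : ℝ) - j|⁻¹ := by
            rw [hδ]; field_simp
    refine (Finset.prod_le_prod (fun _ _ => norm_nonneg _) h1).trans (le_of_eq ?_)
    rw [Finset.prod_mul_distrib, Finset.prod_const, Finset.prod_inv_distrib, prod_abs n i hi']
    have hcard : ((Finset.range (n + 1)).erase i).card = n := by
      rw [Finset.card_erase_of_mem hi, Finset.card_range]; rfl
    rw [hcard]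
    congr 1
    have hch := Nat.choose_mul_factorial_mul_factorial hi'
    have hch' : (n.choose i : ℝ) * i.factorial * (n - i).factorial = n.factorial := by
      exact_mod_cast hch
    rw [← hch']
    have h8 : (n.choose i : ℝ) ≠ 0 := by
      exact_mod_cast (Nat.choose_pos hi').ne'
    field_simp
  rw [heval]
  refine (norm_sum_le _ _).trans ((Finset.sum_le_sum hterm).trans ?_)
  rw [← Finset.mul_sum, ← Finset.mul_sum, ← Finset.sum_div]
  have hsum : ∑ i ∈ Finset.range (n + 1), (n.choose i : ℝ) = 2 ^ n := by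
    exact_mod_cast Nat.sum_range_choose n
  rw [hsum]
  have hexp : ((n : ℝ) + 1) ^ n / n.factorial ≤ 3 ^ (n + 1) := by
    have h1 := Real.pow_div_factorial_le_exp (x := (n : ℝ) + 1) (by positivity) n
    have h2 : Real.exp ((n : ℝ) + 1) = Real.exp 1 ^ (n + 1) := by
      rw [← Real.exp_nat_mul]; push_cast; ring_nf
    rw [h2] at h1
    refine h1.trans (pow_le_pow_left₀ (Real.exp_pos _).le ?_ _)
    linarith [Real.exp_one_lt_d9]
  have e : (8 * N * ((n : ℝ) + 1)) ^ n * (2 ^ n / n.factorial) =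
      (16 * N) ^ n * (((n : ℝ) + 1) ^ n / n.factorial) := by
    rw [mul_pow (8 * (N : ℝ)), show (16 : ℝ) * N = 8 * N * 2 by ring, mul_pow (8 * (N : ℝ)) 2]
    ring
  rw [e]
  have h9 : (16 * N : ℝ) ^ n * (((n : ℝ) + 1) ^ n / n.factorial) ≤ (48 * N) ^ (n + 1) := by
    calc (16 * N : ℝ) ^ n * (((n : ℝ) + 1) ^ n / n.factorial) ≤ (16 * N) ^ n * 3 ^ (n + 1) :=
          mul_le_mul_of_nonneg_left hexp (by positivity)
      _ ≤ (16 * N) ^ (n + 1) * 3 ^ (n + 1) := by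
          refine mul_le_mul_of_nonneg_right ?_ (by positivity)
          exact pow_le_pow_right₀ (by linarith) (Nat.le_succ _)
      _ = (48 * N) ^ (n + 1) := by rw [← mul_pow]; ring_nf
  calc η * ((16 * N) ^ n * (((n : ℝ) + 1) ^ n / n.factorial)) ≤ η * (48 * N) ^ (n + 1) :=
        mul_le_mul_of_nonneg_left h9 hη0
    _ = _ := mul_comm _ _

theorem resc_measure {N : ℕ} (hN : 1 ≤ N) {b r : ℝ} (hb : 0 < b)
    (hbs : 48 * N * (4 * Real.pi) * (16 * Real.pi ^ 2 * b) ≤ 1 / 10) (hr : 0 < r)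
    (hL : 336 * N ≤ √(b / 2) * r) :
    volume {p : ℝ | p ∈ Icc (b / 2) b ∧ ∃ a : ℝ → ℤ → ℂ, RSol (√p) a ∧ ∃ J : ℝ,
      ∀ t ∈ Icc 0 (2 * Real.pi), ∀ κ : ℕ, ‖a t ((κ : ℤ) + 1)‖ * r ^ (κ + 1) ≤ J} ≤
      ENNReal.ofReal (b / (4 * N)) := by
  have hN0 : (0 : ℝ) < N := by exact_mod_cast hN
  have hN1 : (1 : ℝ) ≤ N := by exact_mod_cast hN
  by_contra hcon
  rw [not_le] at hcon
  have hpi := Real.pi_gt_three
  set E : ℕ → Set ℝ := fun J => {p | p ∈ Icc (b / 2) b ∧ ∃ a : ℝ → ℤ → ℂ, RSol (√p) a ∧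
      ∀ t ∈ Icc 0 (2 * Real.pi), ∀ κ : ℕ, ‖a t ((κ : ℤ) + 1)‖ * r ^ (κ + 1) ≤ (J : ℝ)} with hE
  have hmono : Monotone E := by
    intro J J' hJ p hp
    obtain ⟨hp1, a, ha, h⟩ := hp
    refine ⟨hp1, a, ha, fun t ht κ => (h t ht κ).trans ?_⟩
    exact_mod_cast hJ
  have hunion : ⋃ J, E J = {p : ℝ | p ∈ Icc (b / 2) b ∧ ∃ a : ℝ → ℤ → ℂ, RSol (√p) a ∧ ∃ J : ℝ,
      ∀ t ∈ Icc 0 (2 * Real.pi), ∀ κ : ℕ, ‖a t ((κ : ℤ) + 1)‖ * r ^ (κ + 1) ≤ J} := by
    ext p
    rw [mem_iUnion]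
    constructor
    · rintro ⟨J, hp, a, ha, h⟩
      exact ⟨hp, a, ha, J, h⟩
    · rintro ⟨hp, a, ha, J, hJ⟩
      obtain ⟨J', hJ'⟩ := exists_nat_ge J
      exact ⟨J', hp, a, ha, fun t ht κ => (hJ t ht κ).trans hJ'⟩
  obtain ⟨J, hJ⟩ : ∃ J, ENNReal.ofReal (b / (4 * N)) < volume (E J) := by
    have h1 : volume (⋃ J, E J) = ⨆ J, volume (E J) := hmono.measure_iUnion
    rw [hunion] at h1
    rw [← lt_iSup_iff, ← h1]
    exact hcon
  have hU : ∀ κ : ℕ, ∀ t ∈ Icc 0 (2 * Real.pi), ‖U κ t ((κ : ℤ) + 1)‖ ≤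
      48 * N * (J * (1 / 7) ^ (κ + 1) + (1 / 10) ^ (κ + 1)) := by
    intro κ t ht
    set η : ℝ := J * (1 / (336 * N)) ^ (κ + 1) + (4 * Real.pi) ^ (κ + 1) *
      (16 * Real.pi ^ 2 * b) ^ (κ + 1) with hη
    have h1 : ∀ p ∈ E J, ‖(pol κ (κ + 1) t).eval (p : ℂ)‖ ≤ η := by
      rintro p ⟨hp, a, ha, h⟩
      have hp0 : 0 < p := lt_of_lt_of_le (by linarith) hp.1
      have hs : 0 < √p := Real.sqrt_pos.2 hp0
      have hsq : √p ^ 2 = p := Real.sq_sqrt hp0.le
      have hs8 : 8 * Real.pi * √p ≤ 1 := by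
        have h64 : (8 * Real.pi * √p) ^ 2 ≤ 1 := by
          rw [mul_pow, hsq]
          have : 64 * Real.pi ^ 2 * b ≤ 1 := by
            have h0 : 0 ≤ Real.pi ^ 2 * b := by positivity
            nlinarith [mul_le_mul_of_nonneg_right hpi.le h0]
          nlinarith [mul_le_mul_of_nonneg_left hp.2 (sq_nonneg (8 * Real.pi))]
        exact (sq_le_one_iff₀ (by positivity)).1 h64
      obtain ⟨K, hK⟩ := ha.bdd
      have h2 := pol_est hs hs8 ha.deriv ha.init hK ht κ (κ + 1)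
      have hc : ((√p : ℝ) : ℂ) ^ 2 = (p : ℂ) := by
        rw [← Complex.ofReal_pow, hsq]
      rw [hc, hsq] at h2
      refine h2.trans (add_le_add ?_ ?_)
      · -- decay
        have h3 := h t ht κ
        have hsr : 336 * N ≤ √p * r := by
          refine hL.trans (mul_le_mul_of_nonneg_right ?_ hr.le)
          exact Real.sqrt_le_sqrt hp.1
        have hrp : 0 < r ^ (κ + 1) := by positivity
        have h4 : ‖a t ((κ : ℤ) + 1)‖ ≤ J * (r ^ (κ + 1))⁻¹ := by
          rw [← div_eq_mul_inv, le_div_iff₀ hrp]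
          exact h3
        calc (√p ^ (κ + 1))⁻¹ * ‖a t ((κ : ℤ) + 1)‖
            ≤ (√p ^ (κ + 1))⁻¹ * (J * (r ^ (κ + 1))⁻¹) :=
              mul_le_mul_of_nonneg_left h4 (by positivity)
          _ = J * (1 / (√p * r)) ^ (κ + 1) := by
              rw [one_div, inv_pow, mul_pow, mul_inv]; ring
          _ ≤ J * (1 / (336 * N)) ^ (κ + 1) := by
              refine mul_le_mul_of_nonneg_left ?_ (Nat.cast_nonneg J)
              exact pow_le_pow_left₀ (by positivity)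
                (one_div_le_one_div_of_le (by positivity) hsr) _
      · refine mul_le_mul_of_nonneg_left ?_ (by positivity)
        refine pow_le_pow_left₀ (by positivity) ?_ _
        exact mul_le_mul_of_nonneg_left hp.2 (by positivity)
    have h2 := remezN hN hb (fun p hp => hp.1) hJ.le (κ + 1) (pol κ (κ + 1) t)
      (pol_natDegree κ (κ + 1) t) h1
    rw [pol_zero] at h2
    refine h2.trans ?_
    have e1 : (48 * N : ℝ) ^ (κ + 1 + 1) * η = 48 * N * (J * (1 / 7) ^ (κ + 1) +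
        (48 * N * (4 * Real.pi) * (16 * Real.pi ^ 2 * b)) ^ (κ + 1)) := by
      rw [hη, pow_succ (48 * N : ℝ) (κ + 1), mul_pow _ (16 * Real.pi ^ 2 * b),
        mul_pow (48 * (N : ℝ)) (4 * Real.pi)]
      have : (1 / 7 : ℝ) ^ (κ + 1) = (48 * N) ^ (κ + 1) * (1 / (336 * N)) ^ (κ + 1) := by
        rw [← mul_pow]
        congr 1
        field_simp
        norm_num
      rw [this]
      ring
    rw [e1]
    have : (48 * N * (4 * Real.pi) * (16 * Real.pi ^ 2 * b)) ^ (κ + 1) ≤ (1 / 10 : ℝ) ^ (κ + 1) :=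
      pow_le_pow_left₀ (by positivity) hbs _
    have h48 : (0 : ℝ) ≤ 48 * N := by positivity
    exact mul_le_mul_of_nonneg_left (by linarith) h48
  set n : ℕ := 8 * N * (J + 1) with hn
  have h1 := diag_lower n (hU n)
  have h6 : (0 : ℝ) < 6 ^ (n + 1) := by positivity
  rw [div_le_iff₀ h6] at h1
  have h7 : ((1 / 7 : ℝ)) ^ (n + 1) * 6 ^ (n + 1) ≤ 1 := by
    rw [← mul_pow]
    exact pow_le_one₀ (by norm_num) (by norm_num)
  have h10 : ((1 / 10 : ℝ)) ^ (n + 1) * 6 ^ (n + 1) ≤ 1 := by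
    rw [← mul_pow]
    exact pow_le_one₀ (by norm_num) (by norm_num)
  have hJ0 : (0 : ℝ) ≤ J := Nat.cast_nonneg J
  have h8 : (J : ℝ) * ((1 / 7 : ℝ) ^ (n + 1) * 6 ^ (n + 1)) ≤ J * 1 :=
    mul_le_mul_of_nonneg_left h7 hJ0
  have h9 : 48 * (N : ℝ) * (J * (1 / 7) ^ (n + 1) + (1 / 10) ^ (n + 1)) * 6 ^ (n + 1) ≤
      48 * N * (J + 1) := by
    have e : 48 * (N : ℝ) * (J * (1 / 7) ^ (n + 1) + (1 / 10) ^ (n + 1)) * 6 ^ (n + 1) =
      48 * N * (J * ((1 / 7) ^ (n + 1) * 6 ^ (n + 1)) + (1 / 10) ^ (n + 1) * 6 ^ (n + 1)) := by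
      ring
    rw [e]
    exact mul_le_mul_of_nonneg_left (by linarith) (by positivity)
  have h11 : (n : ℝ) = 8 * N * (J + 1) := by rw [hn]; push_cast; ring
  rw [h11] at h1
  have h12 := h1.trans h9
  nlinarith

theorem orig_measure {N : ℕ} (hN : 1 ≤ N) {ν : ℝ} (hν : 1 < ν) {m : ℕ} (hm : 1 ≤ m) {b : ℝ} (hb : 0 < b)
    (hbs : 48 * N * (4 * Real.pi) * (16 * Real.pi ^ 2 * b) ≤ 1 / 10)
    (hL : 336 * N ≤ √(b / 2) * ν ^ m) :
    volume {p : ℝ | p ∈ Icc (b / 2) b ∧ ∃ a : ℝ → ℤ → ℂ,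
      (∀ k : ℤ, ∀ t ∈ Icc 0 (2 * Real.pi / (2 * Real.pi * m) ^ 2),
        HasDerivWithinAt (fun s => a s k)
          (Complex.I * (-((4 * Real.pi ^ 2 * (k : ℝ) ^ 2 : ℝ) : ℂ) * a t k + conv (a t) (a t) k))
            (Icc 0 (2 * Real.pi / (2 * Real.pi * m) ^ 2)) t) ∧
      (∀ k : ℤ, a 0 k = if k = m ∨ k = -m then (((2 * Real.pi * m) ^ 2 * √p : ℝ) : ℂ) else 0) ∧
      ∃ K : ℝ, ∀ t ∈ Icc 0 (2 * Real.pi / (2 * Real.pi * m) ^ 2),
        Bd (fun k => a t k * ν ^ k.natAbs) K} ≤ ENNReal.ofReal (b / (4 * N)) := by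
  refine le_trans (measure_mono ?_) (resc_measure hN (r := ν ^ m) hb hbs (by positivity) hL)
  rintro p ⟨hp, a, ha, h0, K, hK⟩
  refine ⟨hp, ?_⟩
  have hm0 : (0 : ℝ) < m := by exact_mod_cast hm
  have hmZ : (m : ℤ) ≠ 0 := by exact_mod_cast (by omega : m ≠ 0)
  have hpi := Real.pi_gt_three
  set W : ℝ := (2 * Real.pi * m) ^ 2 with hW
  have hW0 : 0 < W := by positivity
  have hWc : (W : ℂ) ≠ 0 := by exact_mod_cast hW0.ne'
  have hmaps : ∀ s ∈ Icc 0 (2 * Real.pi), s / W ∈ Icc 0 (2 * Real.pi / W) := by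
    intro s hs
    exact ⟨div_nonneg hs.1 hW0.le, div_le_div_of_nonneg_right hs.2 hW0.le⟩
  have hKa : ∀ t ∈ Icc 0 (2 * Real.pi / W), Bd (a t) K := fun t ht => (hK t ht).of_le fun k => by
    rw [norm_mul]
    have h1 : (1 : ℝ) ≤ ‖(ν : ℂ) ^ k.natAbs‖ := by
      rw [norm_pow, Complex.norm_real, Real.norm_of_nonneg (by linarith)]
      exact one_le_pow₀ hν.le
    nlinarith [norm_nonneg (a t k)]
  have hoff : ∀ t ∈ Icc 0 (2 * Real.pi / W), ∀ k : ℤ, ¬ (m : ℤ) ∣ k → a t k = 0 := by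
    intro t ht k hk
    refine offlattice (lam := fun k : ℤ => 4 * Real.pi ^ 2 * (k : ℝ) ^ 2) ha ?_ hKa ht hk
    intro k hk
    rw [h0, if_neg]
    rintro (h | h)
    · exact hk (by rw [h])
    · exact hk (by rw [h]; exact (dvd_neg.2 dvd_rfl))
  refine ⟨resc m a, ⟨?_, ?_, K, ?_⟩, K, ?_⟩
  · intro k t ht
    exact resc_deriv hm rfl ha hoff k ht
  · intro k
    unfold resc
    rw [zero_div, h0]
    have e1 : ((m : ℤ) * k = m ∨ (m : ℤ) * k = -m) ↔ (k = 1 ∨ k = -1) := by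
      constructor
      · rintro (h | h)
        · left
          exact mul_left_cancel₀ hmZ (by rw [h, mul_one])
        · right
          exact mul_left_cancel₀ hmZ (by rw [h, mul_neg, mul_one])
      · rintro (h | h)
        · left; rw [h, mul_one]
        · right; rw [h, mul_neg, mul_one]
    by_cases hk : k = 1 ∨ k = -1
    · rw [if_pos (e1.2 hk), if_pos hk]
      show ((W : ℝ) : ℂ)⁻¹ * ((W * √p : ℝ) : ℂ) = ((√p : ℝ) : ℂ)
      rw [Complex.ofReal_mul, ← mul_assoc, inv_mul_cancel₀ hWc, one_mul]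
    · rw [if_neg (fun h => hk (e1.1 h)), if_neg hk, mul_zero]
  · intro t ht
    exact resc_bd hm (hKa _ (hmaps t ht))
  · intro t ht κ
    have h1 := (hK _ (hmaps t ht)).le ((m : ℤ) * ((κ : ℤ) + 1))
    have e2 : ((m : ℤ) * ((κ : ℤ) + 1)).natAbs = m * (κ + 1) := by
      rw [Int.natAbs_mul]
      simp
      left
      omega
    rw [e2, norm_mul, norm_pow, Complex.norm_real, Real.norm_of_nonneg (by linarith)] at h1
    rw [← pow_mul]
    refine le_trans (mul_le_mul_of_nonneg_right ?_ (by positivity)) h1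
    unfold resc
    rw [norm_mul, norm_inv, Complex.norm_real, Real.norm_of_nonneg (by positivity)]
    have hmr : (1 : ℝ) ≤ m := by exact_mod_cast hm
    have hW1 : 1 ≤ W := by
      rw [hW]
      apply one_le_pow₀
      nlinarith [Real.pi_gt_three]
    calc ((2 * Real.pi * m) ^ 2)⁻¹ * ‖a (t / (2 * Real.pi * m) ^ 2) (m * ((κ : ℤ) + 1))‖
      ≤ 1 * ‖a (t / (2 * Real.pi * m) ^ 2) (m * ((κ : ℤ) + 1))‖ :=
        mul_le_mul_of_nonneg_right (inv_le_one_of_one_le₀ hW1) (norm_nonneg _)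
      _ = _ := one_mul _


end Pool.Agent.Y244.NLS
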